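import Pool.Agent.Helper29.UG.Props
import Pool.Agent.Helper50.RC.SB1
import Pool.Agent.Helper39.RC.SL2
import Pool.Agent.Helper74.RC.SL1

/-!
# MP_b55b7c_an, packet UG-NoFin: the fixed point algebra has no finite dimensional representation
-/

open scoped ENNReal NNReal InnerProductSpace ComplexOrder
open Filter Topology

attribute [-instance] CStarMatrix.instAlgebra CStarMatrix.instModule CStarMatrix.instSMul
  CStarMatrix.instMulAction CStarMatrix.instDistribMulAction

noncomputable section
namespace RC
universe u

theorem noFinP : NoFinP.{u} := by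
  intro A _ _ _ B _ _ _ G _ _ α j hα hfix hS hfd r χ hr χ1 χmul χadd χsmul
  obtain ⟨m, Θ, w, hmul, -, hadd, hsmul, hw⟩ := sB1P (sL2P sL1P) A B G α j hα hfix hS
  have χ0 : χ 0 = 0 := by
    have := χadd 0 0
    rw [add_zero] at this
    exact left_eq_add.1 this
  have χsum : ∀ {ι : Type} (s : Finset ι) (f : ι → B), χ (∑ i ∈ s, f i) = ∑ i ∈ s, χ (f i) := by
    intro ι s f
    classical
    induction s using Finset.induction_on with
    | empty => simpa using χ0
    | insert a s ha ih => rw [Finset.sum_insert ha, Finset.sum_insert ha, χadd, ih]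
  set L : A → (Unit × Fin m) → (Unit × Fin m) → Matrix (Fin r) (Fin r) ℂ :=
    fun a p q => χ (Θ Unit Unit (one1 a) p q) with hL
  have one1_mul : ∀ a b : A, one1 (a * b) = one1 a * one1 b := by
    intro a b
    ext i k
    rw [CStarMatrix.mul_apply]
    simp [one1]
  have one1_add : ∀ a b : A, one1 (a + b) = one1 a + one1 b := fun a b => rfl
  have L_mul : ∀ (a b : A) p q, L (a * b) p q = ∑ s, L a p s * L b s q := by
    intro a b p q
    simp only [hL]
    rw [one1_mul, hmul, CStarMatrix.mul_apply, χsum]
    exact Finset.sum_congr rfl fun s _ => χmul _ _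
  have L_add : ∀ (a b : A), L (a + b) = L a + L b := by
    intro a b
    funext p q
    simp only [hL, Pi.add_apply]
    rw [one1_add, hadd, CStarMatrix.add_apply, χadd]
  have L_smul : ∀ (c : ℝ) (a : A), L (c • a) = c • L a := by
    intro c a
    funext p q
    simp only [hL, Pi.smul_apply]
    have e1 : one1 (c • a) = c • one1 a := rfl
    rw [e1, hsmul]
    have e2 : (c • Θ Unit Unit (one1 a)) p q = c • (Θ Unit Unit (one1 a) p q) := rfl
    rw [e2, ← Complex.coe_smul, χsmul, Complex.coe_smul]
  have L1 : L 1 ≠ 0 := by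
    intro h0
    have h1 := hw Unit (one1 (1 : B))
    have e1 : mp j (one1 (1 : B)) = one1 (1 : A) := by
      ext i k
      change j 1 = 1
      exact map_one j
    rw [e1] at h1
    have h2 := congrArg (fun M : CStarMatrix Unit Unit B => χ (M () ())) h1
    rw [CStarMatrix.mul_apply, χsum] at h2
    have h3 : χ ((one1 (1 : B)) () ()) = 1 := χ1
    rw [h3] at h2
    have h4 : ∀ q ∈ (Finset.univ : Finset (Unit × Fin m)),
        χ ((w Unit * Θ Unit Unit (one1 (1 : A))) () q * (w Unit).conjTranspose q ()) = 0 := by
      intro q _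
      rw [χmul, CStarMatrix.mul_apply, χsum]
      have h5 : ∀ p ∈ (Finset.univ : Finset (Unit × Fin m)),
          χ (w Unit () p * Θ Unit Unit (one1 (1 : A)) p q) = 0 := by
        intro p _
        have h6 : χ (Θ Unit Unit (one1 (1 : A)) p q) = 0 := congrFun (congrFun h0 p) q
        rw [χmul, h6, mul_zero]
      rw [Finset.sum_eq_zero h5, zero_mul]
    rw [Finset.sum_eq_zero h4] at h2
    have : Nonempty (Fin r) := ⟨⟨0, hr⟩⟩
    exact zero_ne_one h2
  have L0 : L 0 = 0 := by
    have := L_add 0 0
    rw [add_zero] at this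
    exact left_eq_add.1 this
  have L_sum : ∀ {ι : Type} (s : Finset ι) (f : ι → A), L (∑ i ∈ s, f i) = ∑ i ∈ s, L (f i) := by
    intro ι s f
    classical
    induction s using Finset.induction_on with
    | empty => simpa using L0
    | insert a s ha ih => rw [Finset.sum_insert ha, Finset.sum_insert ha, L_add, ih]
  have L_inj : ∀ a, L a = 0 → a = 0 := by
    intro a ha
    by_contra hne
    obtain ⟨n, p, q, hpq⟩ := hS.2 a hne
    apply L1
    rw [← hpq, L_sum]
    refine Finset.sum_eq_zero fun i _ => ?_
    funext s t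
    rw [L_mul]
    refine Finset.sum_eq_zero fun s' _ => ?_
    rw [L_mul]
    have : ∀ x ∈ (Finset.univ : Finset (Unit × Fin m)), L (p i) s x * L a x s' = 0 := by
      intro x _
      rw [ha]
      simp
    rw [Finset.sum_eq_zero this, zero_mul]
  let f : A →ₗ[ℝ] ((Unit × Fin m) → (Unit × Fin m) → Fin r → Fin r → ℂ) :=
    { toFun := fun a => L a
      map_add' := L_add
      map_smul' := L_smul }
  have hf : Function.Injective f := by
    rw [injective_iff_map_eq_zero]
    intro a ha
    exact L_inj a ha
  have h1 : FiniteDimensional ℝ A := FiniteDimensional.of_injective f hf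
  exact hfd (Module.Finite.of_restrictScalars_finite ℝ ℂ A)

end RC
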